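import Pool.Agent.KS6_44.MLC.D

/-!
# The sharp order of `∑ k |γ_k| r^k` for univalent functions

`f(z) = z / (1 - z) * exp (∑_j a_j λ_j z / (1 - λ_j z))` with `λ_j = (1 - η_j) e^{iθ_j}`, where the angles
`θ_j` tend to `0` geometrically and `η_j` is constant on blocks of indices whose lengths grow
geometrically. At the scale `1 - r = η` of a block of length `b` the logarithmic coefficients are
dominated by a sum of `b` unimodular terms with frequencies that form a Sidon set, so that their mean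
absolute value over a period is of order `√b`, and `b` is of order `log (1 / η)`.
-/

set_option autoImplicit false

namespace Pool.Agent.Results.MP_51cccb_an.SharpOrder

open Filter Topology

/-- `f` belongs to the class `S` (analytic and injective in the unit disk, `f 0 = 0`, `f' 0 = 1`) and
`γ 1, γ 2, …` are its logarithmic coefficients: `log (f z / z) = 2 ∑_{k ≥ 1} γ_k z ^ k` in the disk. -/
def LogCoeffs (f : ℂ → ℂ) (γ : ℕ → ℂ) : Prop :=
  AnalyticOnNhd ℂ f (Metric.ball 0 1) ∧ Set.InjOn f (Metric.ball 0 1) ∧ f 0 = 0 ∧ deriv f 0 = 1 ∧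
    ∀ z : ℂ, ‖z‖ < 1 → ∃ s : ℂ, HasSum (fun k : ℕ => γ (k + 1) * z ^ (k + 1)) s ∧
      f z = z * Complex.exp (2 * s)

/-- `A(r) = ∑_{k ≥ 1} k |γ_k| r ^ k` -/
noncomputable def A (γ : ℕ → ℂ) (r : ℝ) : ℝ := ∑' k : ℕ, ((k : ℝ) + 1) * ‖γ (k + 1)‖ * r ^ (k + 1)

/-- `γ` satisfies Milin's inequality with the constant `δ`. -/
def Milin (γ : ℕ → ℂ) (δ : ℝ) : Prop :=
  ∀ n : ℕ, ∑ k ∈ Finset.Icc 1 n, (k : ℝ) * ‖γ k‖ ^ 2 ≤ ∑ k ∈ Finset.Icc 1 n, 1 / (k : ℝ) + δ

/-- **The sharp order of the absolute logarithmic-coefficient series.**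
(1) There is `f` in the class `S` whose sum `A(r) = ∑ k |γ_k| r ^ k` satisfies
`(1 - r) A(r) ≥ c √(log (1 / (1 - r)))`, with an absolute constant `c > 0`, for `r` arbitrarily close
to `1`; in particular `A(r)` is not `O(1 / (1 - r))`.
(2) Whenever Milin's inequality holds (which Milin proved for all functions of the class `S` with one
constant `δ < 0.312`), the series converges and `(1 - r) A(r) ≤ √(log (1 / (1 - r)) + δ)` for all
`0 ≤ r < 1`. -/
theorem result :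
    (∃ (f : ℂ → ℂ) (γ : ℕ → ℂ), LogCoeffs f γ ∧ ∃ c : ℝ, 0 < c ∧
      (∃ᶠ r in 𝓝[<] (1 : ℝ), c * √(Real.log (1 / (1 - r))) ≤ (1 - r) * A γ r) ∧
      ∀ C : ℝ, ∃ᶠ r in 𝓝[<] (1 : ℝ), C / (1 - r) < A γ r) ∧
    ∀ (γ : ℕ → ℂ) (δ : ℝ), Milin γ δ → ∀ r : ℝ, 0 ≤ r → r < 1 →
      (Summable fun k : ℕ => ((k : ℝ) + 1) * ‖γ (k + 1)‖ * r ^ (k + 1)) ∧
        (1 - r) * A γ r ≤ √(Real.log (1 / (1 - r)) + δ) := by
  refine ⟨⟨KS6_44.MLC.f, KS6_44.MLC.γ, ⟨KS6_44.MLC.f_an,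
    fun z hz y hy e => KS6_44.MLC.inj (mem_ball_zero_iff.1 hz) (mem_ball_zero_iff.1 hy) e,
    by simp [KS6_44.MLC.f], KS6_44.MLC.f_deriv, fun z hz => KS6_44.MLC.γ_ser hz⟩,
    1 / 4000000, by norm_num, KS6_44.MLC.sharp, fun C => ?_⟩,
    fun γ δ h r r0 r1 => KS6_44.MLC.upper γ h r0 r1⟩
  have t : Tendsto (fun r : ℝ => Real.log (1 / (1 - r))) (𝓝[<] 1) atTop := by
    refine Real.tendsto_log_atTop.comp ?_
    simp only [one_div]
    refine tendsto_inv_nhdsGT_zero.comp (tendsto_nhdsWithin_iff.2 ⟨?_, ?_⟩)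
    · have : Tendsto (fun r : ℝ => 1 - r) (𝓝 1) (𝓝 (1 - 1)) := tendsto_const_nhds.sub tendsto_id
      rw [sub_self] at this
      exact this.mono_left nhdsWithin_le_nhds
    · filter_upwards [self_mem_nhdsWithin] with r hr
      exact sub_pos.2 (Set.mem_Iio.1 hr)
  refine (KS6_44.MLC.sharp.and_eventually ((t.eventually_gt_atTop
    ((4000000 * (|C| + 1)) ^ 2)).and self_mem_nhdsWithin)).mono fun r ⟨h1, h2, h3⟩ => ?_
  have p : 0 < 1 - r := sub_pos.2 h3
  have h4 : 4000000 * (|C| + 1) ≤ √(Real.log (1 / (1 - r))) := Real.le_sqrt_of_sq_le h2.le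
  rw [div_lt_iff₀' p]
  have := le_abs_self C
  have h5 : C < 1 / 4000000 * √(Real.log (1 / (1 - r))) := by linarith
  exact h5.trans_le h1

end Pool.Agent.Results.MP_51cccb_an.SharpOrder
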